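import Pool.Agent.Helper65.LG.Defs

/-!
# Leigh's Markov chain: counting along the tree of cylinders (package L3 of helper65)
-/

set_option autoImplicit false

open Finset Filter Topology

namespace Pool.Agent.Helper1.LG

open Pool.Agent.Helper65.LG

open Classical in
/-- the integers of a progression in an interval -/
theorem card_prog (X : ℕ) (p q : ℤ) (hq : 0 < q) (hqX : q ≤ X) :
    (((Icc (-(X : ℤ)) X).filter (fun x => ∃ t : ℤ, x = p + q * t)).card : ℝ) ≤ 3 * X / q := by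
  have hq' : (0:ℝ) < q := by exact_mod_cast hq
  have hqX' : (q:ℝ) ≤ X := by exact_mod_cast hqX
  obtain ⟨a, ha⟩ : ∃ a : ℤ, a = ⌈((-(X:ℝ) - p) / q)⌉ := ⟨_, rfl⟩
  obtain ⟨b, hb⟩ : ∃ b : ℤ, b = ⌊(((X:ℝ) - p) / q)⌋ := ⟨_, rfl⟩
  have hsub : (Icc (-(X : ℤ)) X).filter (fun x => ∃ t : ℤ, x = p + q * t) ⊆
      (Icc a b).image (fun t => p + q * t) := by
    intro x hx
    rw [mem_filter, mem_Icc] at hx
    obtain ⟨⟨h1, h2⟩, t, rfl⟩ := hx
    refine mem_image.2 ⟨t, mem_Icc.2 ⟨?_, ?_⟩, rfl⟩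
    · rw [ha, Int.ceil_le, div_le_iff₀ hq']
      have : (-(X:ℝ)) ≤ p + q * t := by exact_mod_cast h1
      linarith
    · rw [hb, Int.le_floor, le_div_iff₀ hq']
      have : (p + q * t : ℝ) ≤ X := by exact_mod_cast h2
      linarith
  have h1 : (((Icc (-(X : ℤ)) X).filter (fun x => ∃ t : ℤ, x = p + q * t)).card : ℝ) ≤
      (Icc a b).card := by
    exact_mod_cast (card_le_card hsub).trans card_image_le
  refine h1.trans ?_
  rw [Int.card_Icc]
  have h2 : (((b + 1 - a).toNat : ℤ) : ℝ) = max ((b:ℝ) + 1 - a) 0 := by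
    rw [Int.toNat_eq_max]
    push_cast
    rfl
  rw [Int.cast_natCast] at h2
  rw [h2]
  have h3 : (b:ℝ) ≤ ((X:ℝ) - p) / q := by rw [hb]; exact Int.floor_le _
  have h4 : (-(X:ℝ) - p) / q ≤ a := by rw [ha]; exact Int.le_ceil _
  have h5 : ((X:ℝ) - p) / q - (-(X:ℝ) - p) / q = 2 * X / q := by
    rw [← sub_div]; ring_nf
  have h6 : 1 ≤ (X:ℝ) / q := (one_le_div hq').2 hqX'
  have h7 : 3 * (X:ℝ) / q = 2 * X / q + X / q := by rw [← add_div]; ring_nf
  refine max_le ?_ (by positivity)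
  rw [h7]
  linarith

theorem dd_pos (G : GMap) (i : ℕ) : 0 < dd G i :=
  Nat.gcd_pos_of_pos_right _ (pow_pos (by have := G.hd; omega) _)

theorem gg_pos (G : GMap) (B : ℕ × ℕ) : 0 < gg G B :=
  Nat.gcd_pos_of_pos_right _ (by have := G.hd; omega)

theorem gg_dvd (G : GMap) (B : ℕ × ℕ) : gg G B ∣ G.d := Nat.gcd_dvd_right _ _

open Classical in
theorem count_aux (h1 : S_step1) (h3 : S_step3) (G : GMap) (C : Finset (ℕ × ℕ))
    (F : ℕ → ℕ × ℕ → ℝ) (X n : ℕ)
    (Bad : ℕ → (ℕ → ℝ) → ℕ × ℕ → Prop) (Φ : ℕ → (ℕ → ℝ) → ℕ × ℕ → ℝ) (B₀ : ℕ × ℕ)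
    (hC : IsClass G C)
    (h0 : ∀ l w B, 0 ≤ Φ l w B) (hB : ∀ l w, ∀ B ∈ C, Bad l w B → 1 ≤ Φ l w B)
    (hΦ : ∀ l < n, ∀ w, ∀ B ∈ C, ¬ Bad l w B →
      ∑ B' ∈ C, P G B B' * Φ (l + 1) (fun a => w a + F a B) B' ≤ Φ l w B)
    (hX : ∀ x ∈ cls G B₀, ∀ l < n,
      (∀ l' ≤ l, ¬ Bad l' (fun a => S G (F a) B₀ x l') (Y G B₀ x l')) →
      (G.d : ℝ) * ((G.d * (Y G B₀ x l).2 : ℕ) * Real.exp (S G (f2 G) B₀ x l)) ≤ X) :
    ∀ j l : ℕ, l + j = n → ∀ (B : ℕ × ℕ) (w : ℕ → ℝ) (p q y b : ℤ), B ∈ C → y ∈ cls G B →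
      IsCoprime b (G.d : ℤ) → 0 < q → q ≤ X →
      (∀ t, p + q * t ∈ cls G B₀) →
      (∀ t, (T G)^[l] (p + q * t) = y + ((G.d * B.2 : ℕ) : ℤ) * b * t) →
      (∀ t, Y G B₀ (p + q * t) l = B) → (∀ t a, S G (F a) B₀ (p + q * t) l = w a) →
      (∀ t, ∀ l' < l, ¬ Bad l' (fun a => S G (F a) B₀ (p + q * t) l') (Y G B₀ (p + q * t) l')) →
      (∀ t, (q : ℝ) = (G.d * B.2 : ℕ) * Real.exp (S G (f2 G) B₀ (p + q * t) l)) →
      (((Icc (-(X : ℤ)) X).filter (fun x => (∃ t, x = p + q * t) ∧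
        ∃ l' ≤ n, l ≤ l' ∧ Bad l' (fun a => S G (F a) B₀ x l') (Y G B₀ x l'))).card : ℝ) ≤
      3 * X / q * Φ l w B := by
  have hbad : ∀ (l : ℕ) (w : ℕ → ℝ) (B : ℕ × ℕ) (p q : ℤ), B ∈ C → 0 < q → q ≤ X → Bad l w B →
      (((Icc (-(X : ℤ)) X).filter (fun x => (∃ t, x = p + q * t) ∧
        ∃ l' ≤ n, l ≤ l' ∧ Bad l' (fun a => S G (F a) B₀ x l') (Y G B₀ x l'))).card : ℝ) ≤
      3 * X / q * Φ l w B := by
    intro l w B p q hBC hq hqX hb
    have hq' : (0:ℝ) < q := by exact_mod_cast hq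
    have h4 : (((Icc (-(X : ℤ)) X).filter (fun x => (∃ t, x = p + q * t) ∧
        ∃ l' ≤ n, l ≤ l' ∧ Bad l' (fun a => S G (F a) B₀ x l') (Y G B₀ x l'))).card : ℝ) ≤
        ((Icc (-(X : ℤ)) X).filter (fun x => ∃ t : ℤ, x = p + q * t)).card := by
      refine Nat.cast_le.2 (card_le_card ?_)
      intro x hx
      rw [mem_filter] at hx ⊢
      exact ⟨hx.1, hx.2.1⟩
    refine h4.trans ((card_prog X p q hq hqX).trans ?_)
    have h5 : (0:ℝ) ≤ 3 * X / q := by positivity
    nlinarith [hB l w B hBC hb]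
  intro j
  induction j with
  | zero =>
    intro l hl B w p q y b hBC hy hb hq hqX hcl hT hY hS hnb hqe
    by_cases hbd : Bad l w B
    · exact hbad l w B p q hBC hq hqX hbd
    · have hq' : (0:ℝ) < q := by exact_mod_cast hq
      have h5 : (0:ℝ) ≤ 3 * X / q := by positivity
      rw [filter_eq_empty_iff.2, card_empty]
      · have := h0 l w B
        rw [Nat.cast_zero]
        positivity
      · rintro x - ⟨⟨t, rfl⟩, l', h6, h7, h8⟩
        have : l' = l := by omega
        rw [this, hY t] at h8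
        have h9 : (fun a => S G (F a) B₀ (p + q * t) l) = w := funext fun a => hS t a
        rw [h9] at h8
        exact hbd h8
  | succ j ih =>
    intro l hl B w p q y b hBC hy hb hq hqX hcl hT hY hS hnb hqe
    by_cases hbd : Bad l w B
    · exact hbad l w B p q hBC hq hqX hbd
    have hq' : (0:ℝ) < q := by exact_mod_cast hq
    have hln : l < n := by omega
    obtain ⟨hst1, hst2⟩ := hC.state B hBC
    obtain ⟨hs1, hs2, hs3, hs4⟩ := h1 G B hst1 hst2
    have hd2 := G.hd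
    have hdpos : 0 < G.d := by omega
    have hgp := gg_pos G B
    have hddp := dd_pos G (B.1 % G.d)
    obtain ⟨e, he⟩ := gg_dvd G B
    have hediv : G.d / gg G B = e := by rw [he, Nat.mul_div_cancel_left _ hgp]
    have hepos : 0 < e := by
      rcases Nat.eq_zero_or_pos e with h | h
      · rw [h, mul_zero] at he; omega
      · exact h
    have hed : e ≤ G.d := by rw [he]; exact Nat.le_mul_of_pos_left _ hgp
    -- the modulus of the children
    have hbnd : (G.d : ℝ) * q ≤ X := by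
      have h5 := hX (p + q * 0) (hcl 0) l hln (by
        intro l' hl'
        rcases Nat.lt_or_ge l' l with h | h
        · exact hnb 0 l' h
        · have h6 : l' = l := by omega
          rw [h6, hY 0]
          have h9 : (fun a => S G (F a) B₀ (p + q * 0) l) = w := funext fun a => hS 0 a
          rw [h9]
          exact hbd)
      rw [hY 0, ← hqe 0] at h5
      exact h5
    have hq2 : (0:ℤ) < q * e := by positivity
    have hq2X : q * (e : ℤ) ≤ X := by
      have h5 : (q : ℝ) * e ≤ X := by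
        have : (e : ℝ) ≤ G.d := by exact_mod_cast hed
        nlinarith
      exact_mod_cast h5
    -- the children
    have hchild : ∀ B' ∈ C.filter (Succ G B), ∃ p' : ℤ,
        (∀ t : ℤ, nxt G B (y + ((G.d * B.2 : ℕ) : ℤ) * b * t) = B' →
          ∃ t' : ℤ, p + q * t = p' + q * e * t') ∧
        (((Icc (-(X : ℤ)) X).filter (fun x => (∃ t, x = p' + q * e * t) ∧
          ∃ l' ≤ n, l + 1 ≤ l' ∧ Bad l' (fun a => S G (F a) B₀ x l') (Y G B₀ x l'))).card : ℝ) ≤
          3 * X / ((q * e : ℤ) : ℝ) * Φ (l + 1) (fun a => w a + F a B) B' := by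
      intro B' hB'
      rw [mem_filter] at hB'
      obtain ⟨hB'C, hsucc⟩ := hB'
      obtain ⟨t0, y1, b1, hy1, hb1, hn1, hn2⟩ := h3 G B hst1 hst2 B' hsucc y b hy hb
      rw [hediv] at hn1 hn2
      have hxe : ∀ t : ℤ, (p + q * t0) + q * e * t = p + q * (t0 + e * t) := fun t => by ring
      refine ⟨p + q * t0, ?_, ?_⟩
      · intro t ht
        obtain ⟨t', ht'⟩ := (hn1 t).1 ht
        refine ⟨t', ?_⟩
        rw [hxe]
        congr 2
        linarith
      · have hnx : ∀ t : ℤ, Y G B₀ (p + q * t0 + q * e * t) (l + 1) = B' := by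
          intro t
          show nxt G (Y G B₀ (p + q * t0 + q * e * t) l) ((T G)^[l] (p + q * t0 + q * e * t)) = B'
          rw [hxe, hY, hT]
          exact (hn1 _).2 ⟨t, by ring⟩
        have hSs : ∀ (f : ℕ × ℕ → ℝ) (t : ℤ), S G f B₀ (p + q * t0 + q * e * t) (l + 1) =
            S G f B₀ (p + q * t0 + q * e * t) l + f B := by
          intro f t
          unfold S
          rw [sum_range_succ]
          have : Y G B₀ (p + q * t0 + q * e * t) l = B := by rw [hxe, hY]
          rw [this]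
        refine ih (l + 1) (by omega) B' (fun a => w a + F a B) (p + q * t0) (q * e) y1 b1
          hB'C hy1 hb1 hq2 hq2X ?_ ?_ hnx ?_ ?_ ?_
        · intro t
          rw [hxe]
          exact hcl _
        · intro t
          rw [Function.iterate_succ_apply', hxe, hT]
          exact hn2 t
        · intro t a
          rw [hSs, hxe, hS]
        · intro t l' hl'
          rcases Nat.lt_or_ge l' l with h | h
          · rw [hxe]
            exact hnb _ l' h
          · have h6 : l' = l := by omega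
            rw [h6, hxe, hY]
            have h9 : (fun a => S G (F a) B₀ (p + q * (t0 + e * t)) l) = w :=
              funext fun a => hS _ a
            rw [h9]
            exact hbd
        · intro t
          rw [hSs, Real.exp_add]
          have h10 := hqe (t0 + e * t)
          rw [← hxe] at h10
          have h11 : Real.exp (f2 G B) = (G.d : ℝ) / dd G (B.1 % G.d) := by
            unfold f2
            rw [Real.exp_log (by positivity)]
          rw [h11]
          have h12 : B'.2 = kk G B := hsucc.1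
          have h13 : (gg G B : ℝ) * B'.2 = B.2 * dd G (B.1 % G.d) := by
            rw [h12]
            exact_mod_cast hs4
          have h14 : (G.d : ℝ) = gg G B * e := by exact_mod_cast he
          have hdd' : (0:ℝ) < dd G (B.1 % G.d) := by exact_mod_cast hddp
          push_cast at h10 ⊢
          rw [h10]
          field_simp
          rw [h14]
          linear_combination (-(e : ℝ)) * h13
    choose! p' hp1 hp2 using hchild
    -- the union
    have hsub : (Icc (-(X : ℤ)) X).filter (fun x => (∃ t, x = p + q * t) ∧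
        ∃ l' ≤ n, l ≤ l' ∧ Bad l' (fun a => S G (F a) B₀ x l') (Y G B₀ x l')) ⊆
        (C.filter (Succ G B)).biUnion fun B' =>
          (Icc (-(X : ℤ)) X).filter (fun x => (∃ t, x = p' B' + q * e * t) ∧
          ∃ l' ≤ n, l + 1 ≤ l' ∧ Bad l' (fun a => S G (F a) B₀ x l') (Y G B₀ x l')) := by
      intro x hx
      rw [mem_filter] at hx
      obtain ⟨hxI, ⟨t, rfl⟩, l', h6, h7, h8⟩ := hx
      have hne : l' ≠ l := by
        intro h
        rw [h, hY t] at h8
        have h9 : (fun a => S G (F a) B₀ (p + q * t) l) = w := funext fun a => hS t a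
        rw [h9] at h8
        exact hbd h8
      have hin : y + ((G.d * B.2 : ℕ) : ℤ) * b * t ∈ cls G B := by
        show _ ≡ _ [ZMOD _]
        have h10 : y ≡ (B.1 : ℤ) [ZMOD ((G.d * B.2 : ℕ) : ℤ)] := hy
        have h11 : ((G.d * B.2 : ℕ) : ℤ) * b * t ≡ 0 [ZMOD ((G.d * B.2 : ℕ) : ℤ)] := by
          rw [mul_assoc]
          exact (Int.modEq_zero_iff_dvd.2 (dvd_mul_right _ _))
        simpa using h10.add h11
      obtain ⟨hsc, -⟩ := hs2 _ hin
      have hBm : nxt G B (y + ((G.d * B.2 : ℕ) : ℤ) * b * t) ∈ C.filter (Succ G B) :=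
        mem_filter.2 ⟨hC.closed B hBC _ hsc, hsc⟩
      refine mem_biUnion.2 ⟨_, hBm, mem_filter.2 ⟨hxI, hp1 _ hBm t rfl, l', h6, by omega, h8⟩⟩
    have h5 : (((Icc (-(X : ℤ)) X).filter (fun x => (∃ t, x = p + q * t) ∧
        ∃ l' ≤ n, l ≤ l' ∧ Bad l' (fun a => S G (F a) B₀ x l') (Y G B₀ x l'))).card : ℝ) ≤
        ∑ B' ∈ C.filter (Succ G B),
          3 * X / ((q * e : ℤ) : ℝ) * Φ (l + 1) (fun a => w a + F a B) B' := by
      refine le_trans ?_ (sum_le_sum fun B' hB' => hp2 B' hB')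
      exact_mod_cast (card_le_card hsub).trans card_biUnion_le
    refine h5.trans ?_
    have h6 : ∑ B' ∈ C.filter (Succ G B),
          3 * X / ((q * e : ℤ) : ℝ) * Φ (l + 1) (fun a => w a + F a B) B' =
        3 * X / q * ∑ B' ∈ C, P G B B' * Φ (l + 1) (fun a => w a + F a B) B' := by
      rw [sum_filter, mul_sum]
      refine sum_congr rfl fun B' _ => ?_
      unfold P
      split_ifs with h
      · have h14 : (G.d : ℝ) = gg G B * e := by exact_mod_cast he
        have h15 : (0:ℝ) < gg G B := by exact_mod_cast hgp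
        have h16 : (0:ℝ) < e := by exact_mod_cast hepos
        rw [h14]
        push_cast
        field_simp
      · ring
    rw [h6]
    have h7 : (0:ℝ) ≤ 3 * X / q := by positivity
    exact mul_le_mul_of_nonneg_left (hΦ l hln w B hBC hbd) h7

/-- **the count** -/
theorem l3 (h1 : S_step1) (h3 : S_step3) : S_count := by
  classical
  intro G C F X n Bad Φ B₀ hC hB₀ h0 hB hΦ hdX hX
  obtain ⟨hst1, hst2⟩ := hC.state B₀ hB₀
  have hd2 := G.hd
  have hdpos : 0 < G.d := by omega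
  have hq : (0:ℤ) < ((G.d * B₀.2 : ℕ) : ℤ) := by
    have : 0 < G.d * B₀.2 := Nat.mul_pos hdpos hst1
    exact_mod_cast this
  have h4 := count_aux h1 h3 G C F X n Bad Φ B₀ hC h0 hB hΦ hX n 0 (by omega) B₀ (fun _ => 0)
    (B₀.1 : ℤ) ((G.d * B₀.2 : ℕ) : ℤ) (B₀.1 : ℤ) 1 hB₀ (Int.ModEq.refl _) isCoprime_one_left hq
    (by exact_mod_cast hdX) ?_ (fun t => by simp) (fun t => rfl) (fun t a => by simp [S])
    (fun t l' hl' => absurd hl' (Nat.not_lt_zero _)) (fun t => by simp [S])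
  · have h5 : (((G.d * B₀.2 : ℕ) : ℤ) : ℝ) = G.d * B₀.2 := by push_cast; ring
    rw [h5] at h4
    refine le_trans ?_ h4
    refine Nat.cast_le.2 (card_le_card ?_)
    intro x hx
    rw [mem_filter] at hx ⊢
    obtain ⟨h6, h7, l, h8, h9⟩ := hx
    refine ⟨h6, ?_, l, h8, Nat.zero_le _, h9⟩
    have h10 : x ≡ (B₀.1 : ℤ) [ZMOD ((G.d * B₀.2 : ℕ) : ℤ)] := h7
    obtain ⟨t, ht⟩ := h10.symm.dvd
    exact ⟨t, by linarith⟩
  · intro t
    show _ ≡ _ [ZMOD _]
    have h11 : ((G.d * B₀.2 : ℕ) : ℤ) * t ≡ 0 [ZMOD ((G.d * B₀.2 : ℕ) : ℤ)] :=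
      Int.modEq_zero_iff_dvd.2 (dvd_mul_right _ _)
    simpa using (Int.ModEq.refl (B₀.1 : ℤ)).add h11

end Pool.Agent.Helper1.LG
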